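import Mathlib
import Pool.Agent.Helper71.DKDefs
import Pool.Agent.Helper71.DKWin

/-!
The misere quotient of Dawson's Kayles at heap size 34 is infinite.
-/

namespace Pool.Agent.Results.MP_900c80_co.DawsonInfinite

open Pool.Agent.Helper71.DKDefs Pool.Agent.Helper71.DKWin

/-- Sanity check: the empty position is not a P-position (the player to move wins). -/
lemma empty_not_P : ¬ MisereP 0 := by
  rw [MisereP]
  rintro ⟨⟨G', R, h, -⟩, -⟩
  exact absurd h (Multiset.notMem_zero _)

/-- Sanity check: the single heap of size 2 is a P-position. -/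
lemma two_P : MisereP {2} := by
  have hm : ∀ G', Move {2} G' → G' = 0 := by
    rintro G' ⟨R, h1, h2, -, rfl⟩
    rw [Multiset.mem_singleton] at h1
    have hR : R = 0 := by
      by_contra hne
      obtain ⟨a, ha⟩ := Multiset.exists_mem_of_ne_zero hne
      have h3 := h2 a ha
      have h4 := Multiset.single_le_sum (fun _ _ => Nat.zero_le _) a ha
      omega
    subst hR
    simp
  rw [MisereP]
  refine ⟨⟨0, 0, by simp, by simp, by simp, by simp⟩, ?_⟩
  intro G' h
  rw [hm G' h]
  exact empty_not_P

/-- `k` heaps of size 34. -/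
def power (k : ℕ) : Pos 34 := ⟨Multiset.replicate k 34, by
  intro m hm
  have := Multiset.eq_of_mem_replicate hm
  omega⟩

/-- The context with `j` heaps of size 30 and the heaps 2, 4, 25. -/
def ctx (j : ℕ) : Pos 34 := ⟨Multiset.replicate j 30 + (2 ::ₘ 4 ::ₘ {25}), by
  intro m hm
  rw [Multiset.mem_add, Multiset.mem_replicate, Multiset.mem_cons, Multiset.mem_cons,
    Multiset.mem_singleton] at hm
  omega⟩

lemma power_ctx (k j : ℕ) : (power k : Multiset ℕ) + (ctx j : Multiset ℕ) = test k j := rfl

lemma power_ne {a b : ℕ} (ha : 3 ≤ a) (hab : a < b) :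
    ((power a : Pos 34) : MisereQuotient 34) ≠ ((power b : Pos 34) : MisereQuotient 34) := by
  intro h
  have h1 := ((misereCon 34).eq.mp h) (ctx (a - 1))
  rw [power_ctx, power_ctx, test_P ha, test_P (by omega)] at h1
  omega

/-- **The misere quotient of Dawson's Kayles at heap size 34 is infinite.** -/
theorem result : Infinite (MisereQuotient 34) := by
  refine Infinite.of_injective
    (fun n : ℕ => ((power (n + 3) : Pos 34) : MisereQuotient 34)) ?_
  intro a b hab
  by_contra hne
  rcases Nat.lt_or_gt_of_ne hne with h | h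
  · exact power_ne (by omega) (by omega) hab
  · exact power_ne (by omega) (by omega) hab.symm

end Pool.Agent.Results.MP_900c80_co.DawsonInfinite
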